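import Pool.Agent.helper23.F2.Spec

/-!
# Row f2:CL6 (MP_26dbae_co): bad pairs of walks
-/

set_option autoImplicit false

open scoped BigOperators

namespace Pool.Agent.F2

open Pool.Agent.helper23.TH

noncomputable section

open Classical

theorem CL6_hh {V : Type} [Fintype V] (A : V → V → Prop) (t : ℕ) : 0 ≤ hh A t := by
  unfold hh
  exact Finset.sum_nonneg fun _ _ => Finset.sum_nonneg fun _ _ => sq_nonneg _

theorem CL6_FF {V L : Type} [Fintype V] [Fintype L] {b s : ℕ} (G : LG V L b s) (t : ℕ) (o : Ob t) : 0 ≤ G.FF t o := by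
  unfold LG.FF nsq
  exact Finset.sum_nonneg fun _ _ => Finset.sum_nonneg fun _ _ => Finset.sum_nonneg fun _ _ => sq_nonneg _

theorem CL6_obj (hWK2 : WK2_stmt) (hMT7 : MT7_stmt) (hMT8 : MT8_stmt) {V L : Type} [Fintype V] [Fintype L] {b s : ℕ}
    (G : LG V L b s) (Δ : ℝ) (t : ℕ) (hd : ∀ v, (dg G.A Finset.univ v : ℝ) ≤ Δ) (o : Ob (t + 1)) (ho : Inn o) :
    (((PP G.A (t + 1)).filter fun q => ¬ Disjoint (G.obj q.1 o) (G.obj q.2 o)).card : ℝ) ≤ b * s * Δ * hh G.A t := by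
  have h1 := hWK2 V L b s G (t + 1) o o
  rw [← pow_two] at h1
  have h2 := (pow_le_pow_iff_left₀ (Nat.cast_nonneg _) (CL6_FF G (t + 1) o) two_ne_zero).1 h1
  refine h2.trans ?_
  rcases o with i | j
  · have h3 := hMT7 V L b s G Δ hd (t + 1) i (fun h => ho.1 (by rw [h])) (fun h => ho.2 (by rw [h]))
    rwa [Nat.add_sub_cancel] at h3
  · have h3 := hMT8 V L b s G Δ hd (t + 1) j
    rwa [Nat.add_sub_cancel] at h3

/-- pairs of walks without the first vertex -/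
theorem CL6_bad (hWK2 : WK2_stmt) (hMT7 : MT7_stmt) (hMT8 : MT8_stmt) {V L : Type} [Fintype V] [Fintype L] {b s : ℕ}
    (G : LG V L b s) (Δ : ℝ) (t : ℕ) (hΔ : 0 ≤ Δ) (hd : ∀ v, (dg G.A Finset.univ v : ℝ) ≤ Δ) :
    (((PP G.A (t + 1)).filter fun q => ∃ o : Ob (t + 1), Inn o ∧ ¬ Disjoint (G.obj q.1 o) (G.obj q.2 o)).card : ℝ) ≤
      (2 * t + 3) * (b * s * Δ * hh G.A t) := by
  have hc : 0 ≤ b * s * Δ * hh G.A t := by
    have := CL6_hh G.A t
    positivity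
  have h1 : ((PP G.A (t + 1)).filter fun q => ∃ o : Ob (t + 1), Inn o ∧ ¬ Disjoint (G.obj q.1 o) (G.obj q.2 o)) ⊆
      (Finset.univ.filter fun o : Ob (t + 1) => Inn o).biUnion fun o =>
        (PP G.A (t + 1)).filter fun q => ¬ Disjoint (G.obj q.1 o) (G.obj q.2 o) := by
    intro q hq
    rw [Finset.mem_filter] at hq
    obtain ⟨hq1, o, ho, hq2⟩ := hq
    rw [Finset.mem_biUnion]
    exact ⟨o, Finset.mem_filter.2 ⟨Finset.mem_univ _, ho⟩, Finset.mem_filter.2 ⟨hq1, hq2⟩⟩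
  have h2 := (Finset.card_le_card h1).trans Finset.card_biUnion_le
  have h3 : (((PP G.A (t + 1)).filter fun q => ∃ o : Ob (t + 1), Inn o ∧
      ¬ Disjoint (G.obj q.1 o) (G.obj q.2 o)).card : ℝ) ≤
      ∑ o ∈ Finset.univ.filter (fun o : Ob (t + 1) => Inn o),
        (((PP G.A (t + 1)).filter fun q => ¬ Disjoint (G.obj q.1 o) (G.obj q.2 o)).card : ℝ) := by
    exact_mod_cast h2
  refine h3.trans ((Finset.sum_le_card_nsmul _ _ _ fun o ho =>
    CL6_obj hWK2 hMT7 hMT8 G Δ t hd o (Finset.mem_filter.1 ho).2).trans ?_)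
  rw [nsmul_eq_mul]
  apply mul_le_mul_of_nonneg_right _ hc
  have h4 : (Finset.univ.filter (fun o : Ob (t + 1) => Inn o)).card ≤ 2 * t + 3 := by
    refine (Finset.card_le_univ _).trans ?_
    rw [Fintype.card_sum, Fintype.card_fin, Fintype.card_fin]
    omega
  exact_mod_cast h4

theorem CL6_one (hWK2 : WK2_stmt) (hMT7 : MT7_stmt) (hMT8 : MT8_stmt) {V L : Type} [Fintype V] [Fintype L] {b s : ℕ}
    (G : LG V L b s) (Δ : ℝ) (t : ℕ) (hΔ : 0 ≤ Δ) (hd : ∀ v, (dg G.A Finset.univ v : ℝ) ≤ Δ) :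
    (((Finset.univ : Finset ((Fin (t + 3) → V) × (Fin (t + 3) → V))).filter fun q =>
      Wk G.A (t + 2) q.1 ∧ Wk G.A (t + 2) q.2 ∧ G.B1 q.1 q.2).card : ℝ) ≤
      (2 * t + 3) * (b * s * Δ * hh G.A t) * Δ := by
  set bad := (PP G.A (t + 1)).filter fun q => ∃ o : Ob (t + 1), Inn o ∧ ¬ Disjoint (G.obj q.1 o) (G.obj q.2 o) with hbad
  have h1 : ((Finset.univ : Finset ((Fin (t + 3) → V) × (Fin (t + 3) → V))).filter fun q =>
      Wk G.A (t + 2) q.1 ∧ Wk G.A (t + 2) q.2 ∧ G.B1 q.1 q.2).card ≤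
      (bad.sigma fun q' => Finset.univ.filter fun v => G.A (q'.1 0) v).card := by
    apply Finset.card_le_card_of_injOn
      (fun q => (⟨((fun i => q.1 i.succ), (fun i => q.2 i.succ)), q.1 0⟩ :
        (_ : (Fin (t + 2) → V) × (Fin (t + 2) → V)) × V))
    · intro q hq
      rw [Finset.mem_coe, Finset.mem_filter] at hq
      obtain ⟨-, hw1, hw2, h0, h1, hl, o, ho, hdis⟩ := hq
      rw [Finset.mem_coe, Finset.mem_sigma]
      refine ⟨?_, ?_⟩
      · rw [hbad, Finset.mem_filter]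
        refine ⟨?_, o, ho, hdis⟩
        unfold PP
        rw [Finset.mem_filter]
        refine ⟨Finset.mem_univ _, fun i => ?_, fun i => ?_, ?_, ?_⟩
        · exact hw1 i.succ
        · exact hw2 i.succ
        · exact h1
        · exact hl
      · rw [Finset.mem_filter]
        exact ⟨Finset.mem_univ _, G.symm _ _ (hw1 0)⟩
    · rintro ⟨P, Q⟩ hq ⟨P', Q'⟩ hq' h
      rw [Finset.mem_coe, Finset.mem_filter] at hq hq'
      have e0 : P 0 = Q 0 := hq.2.2.2.1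
      have e0' : P' 0 = Q' 0 := hq'.2.2.2.1
      simp only [Sigma.mk.injEq, Prod.mk.injEq, heq_eq_eq] at h
      obtain ⟨⟨hP, hQ⟩, h0⟩ := h
      have hPP : P = P' := by
        funext i
        refine Fin.cases h0 (fun j => ?_) i
        exact congrFun hP j
      have hQQ : Q = Q' := by
        funext i
        refine Fin.cases ?_ (fun j => ?_) i
        · rw [← e0, ← e0', h0]
        · exact congrFun hQ j
      rw [hPP, hQQ]
  rw [Finset.card_sigma] at h1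
  have h2 : (((Finset.univ : Finset ((Fin (t + 3) → V) × (Fin (t + 3) → V))).filter fun q =>
      Wk G.A (t + 2) q.1 ∧ Wk G.A (t + 2) q.2 ∧ G.B1 q.1 q.2).card : ℝ) ≤
      ∑ q' ∈ bad, (dg G.A Finset.univ (q'.1 0) : ℝ) := by
    unfold dg
    exact_mod_cast h1
  refine h2.trans ((Finset.sum_le_card_nsmul _ _ _ fun q' _ => hd _).trans ?_)
  rw [nsmul_eq_mul]
  exact mul_le_mul_of_nonneg_right (CL6_bad hWK2 hMT7 hMT8 G Δ t hΔ hd) hΔ

theorem CL6_two (hWK5 : WK5_stmt) {V L : Type} [Fintype V] {b s : ℕ} (G : LG V L b s) (t : ℕ) :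
    ((Finset.univ : Finset ((Fin (t + 3) → V) × (Fin (t + 3) → V))).filter fun q =>
      Wk G.A (t + 2) q.1 ∧ Wk G.A (t + 2) q.2 ∧ G.B2 q.1 q.2).card ≤
    ((Finset.univ : Finset ((Fin (t + 3) → V) × (Fin (t + 3) → V))).filter fun q =>
      Wk G.A (t + 2) q.1 ∧ Wk G.A (t + 2) q.2 ∧ G.B1 q.1 q.2).card := by
  apply Finset.card_le_card_of_injOn (fun q => ((fun i => q.1 i.rev), (fun i => q.2 i.rev)))
  · intro q hq
    rw [Finset.mem_coe, Finset.mem_filter] at hq ⊢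
    exact ⟨Finset.mem_univ _, (hWK5 V L b s G (t + 2) q.1).1 hq.2.1, (hWK5 V L b s G (t + 2) q.2).1 hq.2.2.1, hq.2.2.2⟩
  · rintro ⟨P, Q⟩ _ ⟨P', Q'⟩ _ h
    simp only [Prod.mk.injEq] at h
    obtain ⟨hP, hQ⟩ := h
    have hPP : P = P' := by
      funext i
      have := congrFun hP i.rev
      simpa using this
    have hQQ : Q = Q' := by
      funext i
      have := congrFun hQ i.rev
      simpa using this
    rw [hPP, hQQ]

theorem CL6 (hWK2 : WK2_stmt) (hMT7 : MT7_stmt) (hMT8 : MT8_stmt) (hWK5 : WK5_stmt) : CL6_stmt := by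
  intro V L _ _ b s G Δ t hΔ hd
  have h1 := CL6_one hWK2 hMT7 hMT8 G Δ t hΔ hd
  have h2 := CL6_two hWK5 G t
  have h3 : ((Finset.univ : Finset ((Fin (t + 3) → V) × (Fin (t + 3) → V))).filter fun q =>
      Wk G.A (t + 2) q.1 ∧ Wk G.A (t + 2) q.2 ∧ (G.B1 q.1 q.2 ∨ G.B2 q.1 q.2)) ⊆
      ((Finset.univ : Finset ((Fin (t + 3) → V) × (Fin (t + 3) → V))).filter fun q =>
        Wk G.A (t + 2) q.1 ∧ Wk G.A (t + 2) q.2 ∧ G.B1 q.1 q.2) ∪
      ((Finset.univ : Finset ((Fin (t + 3) → V) × (Fin (t + 3) → V))).filter fun q =>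
        Wk G.A (t + 2) q.1 ∧ Wk G.A (t + 2) q.2 ∧ G.B2 q.1 q.2) := by
    intro q hq
    rw [Finset.mem_filter] at hq
    rw [Finset.mem_union, Finset.mem_filter, Finset.mem_filter]
    obtain ⟨h, h', h4 | h4⟩ := hq.2
    · exact Or.inl ⟨hq.1, h, h', h4⟩
    · exact Or.inr ⟨hq.1, h, h', h4⟩
  have h4 := (Finset.card_le_card h3).trans (Finset.card_union_le _ _)
  have h5 : (((Finset.univ : Finset ((Fin (t + 3) → V) × (Fin (t + 3) → V))).filter fun q =>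
      Wk G.A (t + 2) q.1 ∧ Wk G.A (t + 2) q.2 ∧ (G.B1 q.1 q.2 ∨ G.B2 q.1 q.2)).card : ℝ) ≤
      (((Finset.univ : Finset ((Fin (t + 3) → V) × (Fin (t + 3) → V))).filter fun q =>
        Wk G.A (t + 2) q.1 ∧ Wk G.A (t + 2) q.2 ∧ G.B1 q.1 q.2).card : ℝ) +
      (((Finset.univ : Finset ((Fin (t + 3) → V) × (Fin (t + 3) → V))).filter fun q =>
        Wk G.A (t + 2) q.1 ∧ Wk G.A (t + 2) q.2 ∧ G.B2 q.1 q.2).card : ℝ) := by
    exact_mod_cast h4
  have h6 : (((Finset.univ : Finset ((Fin (t + 3) → V) × (Fin (t + 3) → V))).filter fun q =>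
        Wk G.A (t + 2) q.1 ∧ Wk G.A (t + 2) q.2 ∧ G.B2 q.1 q.2).card : ℝ) ≤
      (((Finset.univ : Finset ((Fin (t + 3) → V) × (Fin (t + 3) → V))).filter fun q =>
        Wk G.A (t + 2) q.1 ∧ Wk G.A (t + 2) q.2 ∧ G.B1 q.1 q.2).card : ℝ) := by
    exact_mod_cast h2
  refine h5.trans ?_
  have h7 : (2 * t + 3) * (b * s * Δ * hh G.A t) * Δ + (2 * t + 3) * (b * s * Δ * hh G.A t) * Δ =
      2 * (2 * t + 3) * b * s * Δ ^ 2 * hh G.A t := by ring
  rw [← h7]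
  exact add_le_add h1 (h6.trans h1)

end

end Pool.Agent.F2
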